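import Pool.Agent.Helper21.HS.TF

/-! # HS module FA: Fodor's lemma for an atom -/

namespace Pool.Agent.Helper21.HS

open Ordinal Cardinal ZFSet Order Pool.Agent.Helper73.HODC Pool.Agent.Helper73.HE
open Pool.Agent.Helper73.HM Pool.Agent.Helper73.HU Pool.Agent.Helper73.HV
open Pool.Agent.Helper36.HS

theorem fa (h : StTR) : StFA := by
  intro c δ g hh A r hch hA hr hae
  have hcof : ℵ₀ < c.ord.cof := reg_cof hch.reg hch.unc
  obtain ⟨C, hC, hC'⟩ := hae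
  have hT : Stat {i | hh i ∈ A} c.ord := by
    rw [← h hh hch.nor c.ord hcof A, hch.top]
    exact hA.1
  have hTC := hT.inter_club hcof hC
  have hsel : ∀ i, ∃ k, i ∈ {i | hh i ∈ A} ∩ C → i < c.ord → k < i ∧ g k = r (hh i) := by
    intro i
    by_cases hi : i ∈ {i | hh i ∈ A} ∩ C ∧ i < c.ord
    · obtain ⟨k, hk, hk'⟩ := hC' i hi.1.2 hi.2 hi.1.1
      exact ⟨k, fun _ _ => ⟨hk, hk'⟩⟩
    · exact ⟨0, fun h1 h2 => absurd ⟨h1, h2⟩ hi⟩
  choose φ hφ using hsel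
  obtain ⟨k₀, hk₀, hst⟩ := fodor hch.reg hch.unc hTC (r := φ)
    (fun i hi hic _ => (hφ i hi hic).1)
  refine ⟨g k₀, hch.gm k₀ hk₀, fun hbad => ?_⟩
  have hst2 : Stat {i | hh i ∈ {a | a ∈ A ∧ r a = g k₀}} c.ord := by
    refine hst.mono fun i hi hic => ?_
    obtain ⟨h1, h2⟩ := hi
    refine ⟨h1.1, ?_⟩
    rw [← (hφ i h1 hic).2, h2]
  rw [← h hh hch.nor c.ord hcof, hch.top] at hst2
  have hdp : DPs {a | r a = g k₀} := by
    refine (DP.exO (Q := fun b v => r (v 0).rank = b ∧ b = g k₀) ?_).congr fun v => ?_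
    · exact (hr.rename (fun n => if n = 0 then 1 else 0)).and (DP.rank_eq_ord 0 (g k₀))
    · constructor
      · intro h1; exact ⟨_, h1, rfl⟩
      · rintro ⟨b, h1, h2⟩; exact h1.trans h2
  refine hA.2 (ordSet δ {a | r a = g k₀}) (od_ordSet hdp δ) (ordSet_sub _ _) ⟨?_, ?_⟩
  · refine hst2.mono fun a ha haδ => ⟨ha.1, mem_st_ordSet.2 ⟨haδ, ha.2⟩⟩
  · refine hbad.mono fun a ha haδ => ⟨ha.1, fun h1 => ha.2 (mem_st_ordSet.1 h1).2⟩

end Pool.Agent.Helper21.HS
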