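import Pool.Agent.Helper36.HS.St

/-! # HS module TF: transfer of nonstationary sets -/

namespace Pool.Agent.Helper21.HS

open Ordinal Cardinal ZFSet Order Pool.Agent.Helper73.HODC Pool.Agent.Helper73.HE
open Pool.Agent.Helper73.HM Pool.Agent.Helper73.HU Pool.Agent.Helper73.HV
open Pool.Agent.Helper36.HS

theorem not_stat_iff {c : Cardinal.{0}} {T : Set Ordinal.{0}} :
    ¬ Stat T c.ord ↔ CAE c (fun i => i ∉ T) := by
  constructor
  · intro h
    simp only [Stat] at h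
    push Not at h
    obtain ⟨D, hD, hD'⟩ := h
    exact ⟨D, hD, fun i hi hic hiT => absurd hic (not_lt.2 (hD' i hiT hi))⟩
  · rintro ⟨D, hD, hD'⟩ h
    obtain ⟨a, h1, h2, h3⟩ := h D hD
    exact hD' a h2 h3 h1

theorem cae_mono {c : Cardinal.{0}} {P Q : Ordinal.{0} → Prop} (h : CAE c P)
    (hPQ : ∀ i, i < c.ord → P i → Q i) : CAE c Q := by
  obtain ⟨C, hC, hC'⟩ := h
  exact ⟨C, hC, fun i hi hic => hPQ i hic (hC' i hi hic)⟩

theorem tf (h : StTR) : StTF := by
  intro c δ g hh hch A Q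
  have hcof : ℵ₀ < c.ord.cof := reg_cof hch.reg hch.unc
  have h1 := h hh hch.nor c.ord hcof {a | a ∈ A ∧ ¬ Q a}
  rw [hch.top] at h1
  rw [h1, not_stat_iff]
  constructor
  · intro h2
    refine cae_mono h2 fun i _ h3 h4 => ?_
    by_contra h5
    exact h3 ⟨h4, h5⟩
  · intro h2
    refine cae_mono h2 fun i _ h3 h4 => ?_
    exact h4.2 (h3 h4.1)

end Pool.Agent.Helper21.HS
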